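import Pool.Agent.R942.HX.Hall
import Pool.Agent.N790.CM.C
import Pool.Agent.N760.IT.C

/-!
# Hall's inequality for all abscissas near multiples of Carmichael's function and near the orbits of Euler's function

Let `ε ≥ 0` (`ε = 0` is Hall's original conjecture) and `g (ε) = (8 + 3 ε) / (12 (2 + ε))`, so that `g (0) = 1 / 3`. We
consider all integral points `(x, y)` of all curves `y ^ 2 = x ^ 3 + d` with `x ≠ 0`, `d ≠ 0`, and the inequality
`log |x| < (2 + ε) log |d| - c` with an arbitrarily large constant `c`.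

(1) For almost all `m` it holds for EVERY point for which `|x|` is within `w ^ κ` of some multiple `w ≤ N ^ B` of
Carmichael's function `λ(m)`, or of `α w ^ e`; here `B (e g(ε) + κ) < 1`.

(2) For almost all `m` it holds for EVERY point for which `|x|` is within `w ^ κ` of some member `w` of the orbit
`m, φ(m), φ(φ(m)), …` with index at most `K(m)`, `K(m) → ∞`, or of `G (f w)`, `f` a multiplicative function like `σ`; here
`e g(ε) + κ < 1`.

An `m` has a power of `N` such multiples, the values of `λ` and of the iterates of `φ` are taken very often, and the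
iterates of `φ` are a thin set; so this does not follow from the number `O (X ^ (g(ε) + η))` of the exceptional points
(starting file `SparseExceptions` of the problem MP_e734ed_nt). The tools are `N790/CM` and `N760/IT` of the starting files.
-/

set_option autoImplicit false

open Filter Topology

namespace Pool.Agent.Results.MP_9d7cd1_nt.CarmichaelAndOrbits

open Pool.Agent.N733.TG (LM Expanding lm_totient lm_sigma expanding_pow)
open Pool.Agent.N790.CM (FewTimes Carries OnMultiples keep_good fewTimes_pred fewTimes_poly pred_dvd_carmichael)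
open Pool.Agent.N760.IT (orbit_good lm_id)

/-- Every integral point `(x, y)` of every curve `y ^ 2 = x ^ 3 + d`, `d ≠ 0`, with `x ≠ 0` and `||x| - z| ≤ r` satisfies
the inequality `log |x| < (2 + ε) log |d| - c`. -/
def HallNear (ε c z r : ℝ) : Prop :=
  ∀ d x y : ℤ, d ≠ 0 → x ≠ 0 → y ^ 2 = x ^ 3 + d → |(|(x : ℝ)|) - z| ≤ r →
    Real.log |(x : ℝ)| < (2 + ε) * Real.log |(d : ℝ)| - c

/-- `(8 + 3 ε) / (12 (2 + ε))`, which decreases from `1 / 3` for `ε = 0` to `1 / 4` -/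
noncomputable def g (ε : ℝ) : ℝ := (8 + 3 * ε) / (12 * (2 + ε))

lemma count {ε : ℝ} (hε : 0 ≤ ε) (c : ℝ) : ∀ η : ℝ, 0 < η → ∃ C : ℝ, ∀ X : ℝ, 1 ≤ X →
    {e : ℤ × ℤ | (Pool.Agent.R942.HX.Point e ∧ ¬ Pool.Agent.R942.HX.Ineq ε (-c) e) ∧ |(e.1 : ℝ)| ≤ X}.Finite ∧
    ({e : ℤ × ℤ | (Pool.Agent.R942.HX.Point e ∧ ¬ Pool.Agent.R942.HX.Ineq ε (-c) e) ∧ |(e.1 : ℝ)| ≤ X}.ncard : ℝ) ≤
      C * X ^ (g ε + η) :=
  (Pool.Agent.R942.HX.sparse hε (-c)).2

lemma near_of {ε c z r : ℝ} (h : ∀ e : ℤ × ℤ, Pool.Agent.R942.HX.Point e → |(|(e.1 : ℝ)|) - z| ≤ r →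
    Pool.Agent.R942.HX.Ineq ε (-c) e) : HallNear ε c z r := by
  intro d x y hd hx hxy hw
  have hd' : y ^ 2 - x ^ 3 = d := by rw [hxy]; ring
  have hP : Pool.Agent.R942.HX.Point (x, y) := ⟨hx, fun h1 => hd (by rw [← hd']; simp only at h1; rw [h1]; ring)⟩
  have h1 := h (x, y) hP hw
  unfold Pool.Agent.R942.HX.Ineq at h1
  simp only at h1
  rw [hd'] at h1
  linarith

lemma almost {P Q : ℕ → Prop} (h : Pool.Agent.N826.IT.Orb.AlmostAll P) (hPQ : ∀ m, P m → Q m) :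
    Tendsto (fun N : ℕ => ({m : ℕ | 1 ≤ m ∧ m ≤ N ∧ ¬ Q m}.ncard : ℝ) / N) atTop (𝓝 0) := by
  classical
  unfold Pool.Agent.N826.IT.Orb.AlmostAll at h
  refine squeeze_zero (fun N => by positivity) (fun N => ?_) h
  refine div_le_div_of_nonneg_right ?_ (Nat.cast_nonneg _)
  rw [← Set.ncard_coe_finset]
  refine Nat.cast_le.2 (Set.ncard_le_ncard ?_ (Finset.finite_toSet _))
  rintro m ⟨g1, g2, g3⟩
  exact Finset.mem_coe.2 (Finset.mem_filter.2 ⟨Finset.mem_Icc.2 ⟨g1, g2⟩, fun hcon => g3 (hPQ m hcon)⟩)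

/-- **Theorem.** Let `ε ≥ 0`, let `c` be real, `κ ≥ 0`, and let `G` have steps `≥ a > 0` and growth at most `v ^ e`.

(1) Let `B ≥ 1`, `B (e g(ε) + κ) < 1`, and let `f` take each positive value at most `T` times at the primes. For every `U`
and all large `N`, for all `m ≤ N` but `N / (log N) ^ U`: for EVERY `w` with `1 ≤ w ≤ N ^ B` and `f(p) ∣ w` for all primes
`p > exp (√(log N))` which divide `m` exactly once, ALL integral points with `||x| - G w| ≤ w ^ κ` satisfy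
`log |x| < (2 + ε) log |d| - c`. Every multiple of Carmichael's function `λ(m)` is admissible for `f(p) = p - 1`, and
`f(p) = |P(p)|` is another example.

(2) Let `e g(ε) + κ < 1` and let `f` be multiplicative and positive, of at most polynomial growth, with `f p ≤ M p` at the
large primes, and injective there, for instance `f(m) = m`, Euler's function or the sum of the divisors. There is `K(m) → ∞`
such that for almost all `m` (natural density), for all `k ≤ K(m)`, with `w = f (φ(φ(⋯ φ(m))))`, `k` times `φ`, ALL integral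
points with `||x| - G w| ≤ w ^ κ` satisfy `log |x| < (2 + ε) log |d| - c`. -/
theorem result :
    (∀ ε c : ℝ, 0 ≤ ε → ∀ (G : ℕ → ℝ) (e : ℝ), Expanding G e → ∀ κ B : ℝ, 0 ≤ κ → 1 ≤ B → B * (e * g ε + κ) < 1 →
      ∀ (f : ℕ → ℕ) (T : ℕ), FewTimes f T → ∀ U : ℕ, ∃ N₀ : ℕ, ∀ N : ℕ, N₀ ≤ N →
      ({m : ℕ | 1 ≤ m ∧ m ≤ N ∧ ¬ ∀ w : ℕ, 1 ≤ w → (w : ℝ) ≤ (N : ℝ) ^ B →
          Carries f (Real.exp √(Real.log N)) m w → HallNear ε c (G w) ((w : ℝ) ^ κ)}.ncard : ℝ) ≤
        N / Real.log N ^ U) ∧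
    (∀ ε c : ℝ, 0 ≤ ε → ∀ (G : ℕ → ℝ) (e : ℝ), Expanding G e → ∀ κ : ℝ, 0 ≤ κ → e * g ε + κ < 1 →
      ∀ f : ℕ → ℕ, LM f → ∃ K : ℕ → ℕ, Tendsto K atTop atTop ∧
        Tendsto (fun N : ℕ => ({m : ℕ | 1 ≤ m ∧ m ≤ N ∧ ¬ ∀ k ≤ K m,
          HallNear ε c (G (f (Nat.totient^[k] m))) ((f (Nat.totient^[k] m) : ℝ) ^ κ)}.ncard : ℝ) / N) atTop (𝓝 0)) ∧
    (FewTimes (fun p => p - 1) 1 ∧
      ∀ (y : ℝ) (m w : ℕ), ArithmeticFunction.carmichael m ∣ w → Carries (fun p => p - 1) y m w) ∧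
    (∀ P : Polynomial ℤ, 1 ≤ P.natDegree → FewTimes (fun p => (P.eval (p : ℤ)).natAbs) (2 * P.natDegree)) ∧
    (LM (fun m => m) ∧ LM Nat.totient ∧ LM (fun m => ∑ d ∈ m.divisors, d)) ∧
    ∀ α e : ℝ, 0 < α → 1 ≤ e → Expanding (fun v => α * (v : ℝ) ^ e) e := by
  refine ⟨fun ε c hε G e hG κ B hκ hB h1 f T hf U => ?_, fun ε c hε G e hG κ hκ h1 f hf => ?_,
    ⟨fewTimes_pred, fun y m w h p hp _ hpm _ => (pred_dvd_carmichael hp hpm).trans h⟩,
    fewTimes_poly, ⟨lm_id, lm_totient, lm_sigma⟩, fun α d hα hd => expanding_pow hα hd⟩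
  · have hg0 : 0 ≤ g ε := (Pool.Agent.R942.HX.g_pos hε).le
    have key : OnMultiples B (fun w => ∀ t : ℤ × ℤ, Pool.Agent.R942.HX.Point t →
        |(|(t.1 : ℝ)|) - G w| ≤ (w : ℝ) ^ κ → Pool.Agent.R942.HX.Ineq ε (-c) t) :=
      keep_good (T := ℤ × ℤ) Pool.Agent.R942.HX.Point (Pool.Agent.R942.HX.Ineq ε (-c))
        (fun t => |(t.1 : ℝ)|) hG (s := g ε) (κ := κ) hg0 hκ hB h1 (count hε c)
    exact (key.mono fun w _ hw => near_of hw) f T hf U
  · have hg0 : 0 ≤ g ε := (Pool.Agent.R942.HX.g_pos hε).le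
    obtain ⟨K, hK, h2⟩ := orbit_good (T := ℤ × ℤ) Pool.Agent.R942.HX.Point (Pool.Agent.R942.HX.Ineq ε (-c))
      (fun t => |(t.1 : ℝ)|) hf hG (s := g ε) (κ := κ) hg0 hκ h1 (count hε c)
    exact ⟨K, hK, almost h2 fun m hm k hk => near_of (hm k hk)⟩

end Pool.Agent.Results.MP_9d7cd1_nt.CarmichaelAndOrbits
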