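import Pool.Agent.R942.HX.Hall
import Pool.Agent.Zk73.OR.F

/-!
# Hall's inequality near multiplicative orders and near all exponents `w` with `m ∣ a ^ w - 1`

Let `ε ≥ 0` (`ε = 0` is Hall's original conjecture) and `g (ε) = (8 + 3 ε) / (12 (2 + ε))`, so that `g (0) = 1 / 3`. We
consider all integral points `(x, y)` of all curves `y ^ 2 = x ^ 3 + d` with `x ≠ 0`, `d ≠ 0`, and the inequality
`log |x| < (2 + ε) log |d| - c` with an arbitrarily large constant `c`. Let `θ = e g(ε) + κ`.

It holds for EVERY point for which `|x|` is within `w ^ κ` of `α w ^ e`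

* for `w` the multiplicative order of `a` modulo `p` (the period length of `1 / p` in base `a`), for all integers `a` with
  `2 ≤ |a| ≤ p ^ c`, `c < 1`, and all primes `p ≤ N` but `O (N ^ (1 - η))`, if `θ < 1`,
* for every divisor `w ≥ m ^ δ` of every integer near `m`, for all `m ≤ N` but `O (N ^ (1 - η))`, if `θ < 1`,
* for EVERY exponent `w ≤ N ^ B` with `m ∣ a ^ w - 1` for some `a` with `2 ≤ |a| ≤ exp (c' √(log N))`, for all `m ≤ N` but
  `N / (log N) ^ A`, if `B θ < 1 / 2`; for instance for all multiples of the period length of `1 / m`,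
* for EVERY `w ≤ N ^ B` with `gcd (w, p - 1) ≥ p ^ (1 - l)` for all large primes `p` dividing `m` exactly once, for all
  `m ≤ N` but `N / (log N) ^ A`, if `B θ + l < 1`.

The tool (`Pool/Agent/Zk73/OR`): a set with `O(X^θ)` elements up to `X` is avoided by the orders modulo almost all primes and by
the large divisors of almost all integers if `θ < 1`; and outside a set of `N / (log N)^A` numbers `m ≤ N`, every `w ≤ N^B` has
`gcd (w, p - 1) ≥ p^(1 - l)` for all large `p ∣ m` for at most `N^(l + ε)` of the `m`. For every `l > 0`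
all multiples of Carmichael's function `λ(m)` are among these `w`; so this extends the tool `N790/CM` of the starting files.
-/

set_option autoImplicit false

namespace Pool.Agent.Results.MP_9d7cd1_nt.MultiplicativeOrders

open Pool.Agent.N733.TG (Expanding expanding_pow)
open Pool.Agent.Zk73.OR (Everywhere keep_good)

/-- Every integral point `(x, y)` of every curve `y ^ 2 = x ^ 3 + d`, `d ≠ 0`, with `x ≠ 0` and `||x| - z| ≤ r` satisfies
the inequality `log |x| < (2 + ε) log |d| - c`. -/
def HallNear (ε c z r : ℝ) : Prop :=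
  ∀ d x y : ℤ, d ≠ 0 → x ≠ 0 → y ^ 2 = x ^ 3 + d → |(|(x : ℝ)|) - z| ≤ r →
    Real.log |(x : ℝ)| < (2 + ε) * Real.log |(d : ℝ)| - c

/-- `(8 + 3 ε) / (12 (2 + ε))`, which decreases from `1 / 3` for `ε = 0` to `1 / 4` -/
noncomputable def g (ε : ℝ) : ℝ := (8 + 3 * ε) / (12 * (2 + ε))

/-- **Theorem.** Let `ε ≥ 0`, let `c` be real, `0 ≤ κ ≤ 1`, and let `G` have steps `≥ a > 0` and growth at most `v ^ e`, for
example `G v = α v ^ e` with `α > 0`, `e ≥ 1`. The four statements of `Everywhere`, about divisors of almost all integers,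
orders modulo almost all primes, numbers sharing large divisors with `p - 1` for the large primes `p` dividing `m`, and
exponents `w` with `m ∣ a ^ w - 1`, hold with `θ = e g(ε) + κ` for the property: ALL integral points with
`||x| - G w| ≤ w ^ κ` satisfy `log |x| < (2 + ε) log |d| - c`. -/
theorem result :
    (∀ ε c : ℝ, 0 ≤ ε → ∀ (G : ℕ → ℝ) (e : ℝ), Expanding G e → ∀ κ : ℝ, 0 ≤ κ → κ ≤ 1 →
      Everywhere (e * g ε + κ) (fun w => HallNear ε c (G w) ((w : ℝ) ^ κ))) ∧
    ∀ α e : ℝ, 0 < α → 1 ≤ e → Expanding (fun v => α * (v : ℝ) ^ e) e := by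
  refine ⟨fun ε c hε G e hG κ hκ hκ1 => ?_, fun α d hα hd => expanding_pow hα hd⟩
  have hg0 : 0 ≤ g ε := (Pool.Agent.R942.HX.g_pos hε).le
  have key := keep_good (T := ℤ × ℤ) Pool.Agent.R942.HX.Point (Pool.Agent.R942.HX.Ineq ε (-c))
    (fun t => |(t.1 : ℝ)|) hG (s := g ε) (κ := κ) hg0 hκ hκ1 (Pool.Agent.R942.HX.sparse hε (-c)).2
  refine key.mono fun w _ hw => ?_
  intro d x y hd hx hxy hxw
  have hd' : y ^ 2 - x ^ 3 = d := by rw [hxy]; ring
  have hP : Pool.Agent.R942.HX.Point (x, y) := ⟨hx, fun h1 => hd (by rw [← hd']; simp only at h1; rw [h1]; ring)⟩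
  have h1 := hw (x, y) hP hxw
  unfold Pool.Agent.R942.HX.Ineq at h1
  simp only at h1
  rw [hd'] at h1
  linarith

end Pool.Agent.Results.MP_9d7cd1_nt.MultiplicativeOrders
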