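import Mathlib
import Pool.Agent.Zk43.HS.Near

/-!
# MP_9d7cd1_nt: Hall's inequality for ALL integral points whose abscissa is near an `S`-unit,
with explicit windows and explicit exponents

Let `S` be a finite set of primes. We consider the integral points `(x, y)`, `d = y ^ 2 - x ^ 3 ≠ 0`,
for which `x` lies in a window around a multiple `(a / h) u` of an `S`-unit `u`, where `a`, `h` are
nonzero integers with `|a|, |h| ≤ H`. The integer `x` is otherwise ARBITRARY in the window, and so is `y`.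

1. If `|h x - a u| ≤ |x| ^ (1 / 4 - δ)`, then `log |x| < (4 / 3) log |d| + C`.
2. If `|h x - a u| ≤ |x| ^ (1 / 6)`, then `log |x| < (1 + ε) log |d| + C`.
3. More precisely, if `r = h x - a u ≠ 0` and `|r| ≤ |x| ^ (1 / 4 - δ)`, then
   `|x| ^ (-δ) min (|x| r ^ 2, |x| ^ (3 / 2) / |r| ^ 3) ≤ C |d|`, and if `h x = a u`, then
   `|x| ^ (3 / 2 - δ) ≤ C |d|`.
4. If `p > q ^ 4` are positive integers and `|h q ^ m x - a p ^ m| ≤ H q ^ m` for some `m` (`x` is at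
   bounded distance from `(a / h) (p / q) ^ m`), then `log |x| < 2 log |d| + C`.
5. The general inequality, for `h u₂ x = a u₁ + n r` with `S`-units `u₁`, `u₂`, `n` and an arbitrary
   integer `r`.

The proof uses the `S`-adic subspace theorem for the four coordinates
`(n r) ^ 2, w₁ ^ 2 n r, w₁ ^ 4, w₁ w₂ ^ 3 y`, where `u₁ = k₁ w₁ ^ 2`, `u₂ = k₂ w₂ ^ 2`, and the
binomial expansion of `x ^ (3 / 2)`.
-/

set_option autoImplicit false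

namespace Pool.Agent.Results.MP_9d7cd1_nt.NearSUnits

/-- `u` is a positive integer all of whose prime factors are in `S` -/
def Smooth (S : Finset ℕ) (u : ℕ) : Prop := u ≠ 0 ∧ u.primeFactors ⊆ S

lemma to_log {e C : ℝ} (he : 0 < e) (hC : 0 < C) {x y d : ℤ} (hd : d ≠ 0) (hxy : y ^ 2 = x ^ 3 + d)
    (h : |(x : ℝ)| ^ e ≤ C * |(y : ℝ) ^ 2 - (x : ℝ) ^ 3|) :
    Real.log |(x : ℝ)| < 1 / e * Real.log |(d : ℝ)| + (1 / e * |Real.log C| + 1) := by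
  have h1 : (y : ℝ) ^ 2 - (x : ℝ) ^ 3 = d := by
    have : (y : ℝ) ^ 2 = (x : ℝ) ^ 3 + d := by exact_mod_cast hxy
    linarith
  rw [h1] at h
  have hd1 : (1 : ℝ) ≤ |(d : ℝ)| := by
    have : 1 ≤ |d| := Int.one_le_abs hd
    exact_mod_cast this
  have hl : 0 ≤ Real.log |(d : ℝ)| := Real.log_nonneg hd1
  have he' : 0 < 1 / e := by positivity
  have h0 : 0 ≤ 1 / e * Real.log |(d : ℝ)| := by positivity
  have h0' : 0 ≤ 1 / e * |Real.log C| := by positivity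
  by_cases hx : x = 0
  · rw [hx]
    push_cast
    rw [abs_zero, Real.log_zero]
    linarith
  · have hx1 : (1 : ℝ) ≤ |(x : ℝ)| := by
      have : 1 ≤ |x| := Int.one_le_abs hx
      exact_mod_cast this
    have h2 := Real.log_le_log (by positivity) h
    rw [Real.log_rpow (by linarith), Real.log_mul hC.ne' (by positivity)] at h2
    have h3 : Real.log |(x : ℝ)| = 1 / e * (e * Real.log |(x : ℝ)|) := by field_simp
    have h4 : 1 / e * (e * Real.log |(x : ℝ)|) ≤ 1 / e * (|Real.log C| + Real.log |(d : ℝ)|) := by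
      gcongr
      linarith [le_abs_self (Real.log C)]
    rw [h3]
    linarith

/-- **Theorem.** Hall's inequality for all integral points with abscissa near an `S`-unit. -/
theorem result :
    -- (1) windows of length `|x| ^ (1 / 4 - δ)`
    (∀ (S : Finset ℕ) (H : ℕ) (δ : ℝ), 0 < δ → ∃ C : ℝ, ∀ d x y : ℤ, d ≠ 0 → y ^ 2 = x ^ 3 + d →
      ∀ (a h : ℤ) (u : ℕ), a ≠ 0 → h ≠ 0 → |a| ≤ H → |h| ≤ H → Smooth S u →
      |((h * x - a * u : ℤ) : ℝ)| ≤ |(x : ℝ)| ^ (1 / 4 - δ) →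
      Real.log |(x : ℝ)| < 4 / 3 * Real.log |(d : ℝ)| + C) ∧
    -- (2) windows of length `|x| ^ (1 / 6)`
    (∀ (S : Finset ℕ) (H : ℕ) (ε : ℝ), 0 < ε → ∃ C : ℝ, ∀ d x y : ℤ, d ≠ 0 → y ^ 2 = x ^ 3 + d →
      ∀ (a h : ℤ) (u : ℕ), a ≠ 0 → h ≠ 0 → |a| ≤ H → |h| ≤ H → Smooth S u →
      |((h * x - a * u : ℤ) : ℝ)| ≤ |(x : ℝ)| ^ (1 / 6 : ℝ) →
      Real.log |(x : ℝ)| < (1 + ε) * Real.log |(d : ℝ)| + C) ∧
    -- (3) the refined inequality in the windows of length `|x| ^ (1 / 4 - δ)`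
    (∀ (S : Finset ℕ) (H : ℕ) (δ : ℝ), 0 < δ → ∃ C : ℝ, ∀ x y : ℤ, y ^ 2 ≠ x ^ 3 →
      ∀ (a h : ℤ) (u : ℕ), a ≠ 0 → h ≠ 0 → |a| ≤ H → |h| ≤ H → Smooth S u →
      (h * x ≠ a * u → |((h * x - a * u : ℤ) : ℝ)| ≤ |(x : ℝ)| ^ (1 / 4 - δ) →
        |(x : ℝ)| ^ (-δ) * min (|(x : ℝ)| * |((h * x - a * u : ℤ) : ℝ)| ^ 2)
          (|(x : ℝ)| ^ (3 / 2 : ℝ) / |((h * x - a * u : ℤ) : ℝ)| ^ 3) ≤
        C * |(y : ℝ) ^ 2 - (x : ℝ) ^ 3|) ∧
      (h * x = a * u → |(x : ℝ)| ^ (3 / 2 - δ) ≤ C * |(y : ℝ) ^ 2 - (x : ℝ) ^ 3|)) ∧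
    -- (4) the integers at bounded distance from `(a / h) (p / q) ^ m`, where `p > q ^ 4`
    (∀ p q H : ℕ, 0 < q → q ^ 4 < p → ∃ C : ℝ, ∀ (m : ℕ) (d x y : ℤ), d ≠ 0 → y ^ 2 = x ^ 3 + d →
      ∀ a h : ℤ, a ≠ 0 → h ≠ 0 → |a| ≤ H → |h| ≤ H →
      |((h * q ^ m * x - a * p ^ m : ℤ) : ℝ)| ≤ H * (q : ℝ) ^ m →
      Real.log |(x : ℝ)| < 2 * Real.log |(d : ℝ)| + C) ∧
    -- (5) the general inequality
    (∀ (S : Finset ℕ) (H : ℕ) (B θ δ : ℝ), 0 ≤ B → 1 / 6 ≤ θ → 0 < δ → ∃ C : ℝ,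
      ∀ (x y a h r : ℤ) (u₁ u₂ n : ℕ), y ^ 2 ≠ x ^ 3 → a ≠ 0 → h ≠ 0 → |a| ≤ H → |h| ≤ H →
      Smooth S u₁ → Smooth S u₂ → Smooth S n →
      (u₁ : ℝ) ≤ |(x : ℝ)| ^ B → (u₂ : ℝ) ≤ |(x : ℝ)| ^ B → h * u₂ * x = a * u₁ + n * r →
      (n : ℝ) * (r : ℝ) ^ 2 ≤ u₂ * |(x : ℝ)| ^ (1 / 2 - δ) → |(r : ℝ)| ≤ |(x : ℝ)| ^ θ →
      (1 / 4 ≤ θ ∨ (n : ℝ) * |(r : ℝ)| ≤ u₂ * |(x : ℝ)| ^ (1 / 4 - δ)) →
      |(x : ℝ)| ^ (3 / 2 - 3 * θ - δ) ≤ C * |(y : ℝ) ^ 2 - (x : ℝ) ^ 3|) := by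
  have hne : ∀ {d x y : ℤ}, d ≠ 0 → y ^ 2 = x ^ 3 + d → y ^ 2 ≠ x ^ 3 := by
    intro d x y hd hxy h0
    exact hd (by linarith)
  refine ⟨?_, ?_, ?_, ?_, ?_⟩
  · intro S H δ hδ
    obtain ⟨C, hC, h1⟩ := Pool.Agent.Zk43.HS.win_quarter S H δ hδ
    refine ⟨1 / (3 / 4 : ℝ) * |Real.log C| + 1, fun d x y hd hxy a h u ha hh haH hhH hu hr => ?_⟩
    have h2 := to_log (by norm_num) hC hd hxy (h1 x y a h u (hne hd hxy) ha hh haH hhH hu hr)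
    have e : (1 : ℝ) / (3 / 4) = 4 / 3 := by norm_num
    rw [e] at h2 ⊢
    exact h2
  · intro S H ε hε
    have h1e : 0 < 1 + ε := by linarith
    obtain ⟨C, hC, h1⟩ := Pool.Agent.Zk43.HS.win_sixth S H (ε / (1 + ε)) (by positivity)
    refine ⟨(1 + ε) * |Real.log C| + 1, fun d x y hd hxy a h u ha hh haH hhH hu hr => ?_⟩
    have h3 := h1 x y a h u (hne hd hxy) ha hh haH hhH hu hr
    have e : 1 - ε / (1 + ε) = 1 / (1 + ε) := by field_simp; ring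
    rw [e] at h3
    have h2 := to_log (by positivity) hC hd hxy h3
    rw [one_div_one_div] at h2
    exact h2
  · intro S H δ hδ
    obtain ⟨C₁, hC1, h1⟩ := Pool.Agent.Zk43.HS.win_ne S H δ hδ
    obtain ⟨C₂, hC2, h2⟩ := Pool.Agent.Zk43.HS.win_eq S H δ hδ
    refine ⟨C₁ + C₂, fun x y hxy a h u ha hh haH hhH hu => ⟨fun h0 hr => ?_, fun h0 => ?_⟩⟩
    · refine (h1 x y a h u hxy ha hh haH hhH hu h0 hr).trans ?_
      gcongr
      linarith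
    · refine (h2 x y a h u hxy ha hh haH hhH hu h0).trans ?_
      gcongr
      linarith
  · intro p q H hq hpq
    obtain ⟨C, hC, h1⟩ := Pool.Agent.Zk43.HS.near_pow4 p q H hq hpq
    refine ⟨1 / (1 / 2 : ℝ) * |Real.log C| + 1, fun m d x y hd hxy a h ha hh haH hhH hr => ?_⟩
    have h2 := to_log (by norm_num) hC hd hxy (h1 m x y a h (hne hd hxy) ha hh haH hhH hr)
    have e : (1 : ℝ) / (1 / 2) = 2 := by norm_num
    rw [e] at h2 ⊢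
    exact h2
  · intro S H B θ δ hB hθ hδ
    obtain ⟨C, -, h1⟩ := Pool.Agent.Zk43.HS.hall_windows S H B θ δ hB hθ hδ
    exact ⟨C, h1⟩

end Pool.Agent.Results.MP_9d7cd1_nt.NearSUnits
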