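import Mathlib
import Pool.Agent.Zk43.HO.Cor

/-!
# MP_9d7cd1_nt: Hall's inequality for ALL integral points whose ORDINATE is near an `S`-unit,
with windows of square root length

Let `S` be a finite set of primes. We consider the integral points `(x, y)`, `d = y ^ 2 - x ^ 3 ≠ 0`,
for which `y` lies in a window around a multiple `(a / h) u` of an `S`-unit `u`, where `a`, `h` are
nonzero integers with `|a|, |h| ≤ H`. The integer `y` is otherwise ARBITRARY in the window, and so is `x`.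

1. If `|h y - a u| ≤ |y| ^ (1 / 2 - δ)`, then `log |x| < (4 / 3) log |d| + C`.
2. If `|h y - a u| ≤ |y| ^ (4 / 9)`, then `log |x| < (1 + ε) log |d| + C`.
3. If `|h u₂ y - a u₁| ≤ u₂ |y| ^ (1 / 3 - δ)` (`y` is within about `|y| ^ (1 / 3 - δ)` of the multiple
   `(a / h) (u₁ / u₂)` of a rational `S`-unit), where `u₁, u₂ ≤ |y| ^ B`, then
   `log |x| < (2 / 3) log |d| + C`.
4. The same for the integers `y` within about `|y| ^ (1 / 3 - δ)` of `(a / h) (p / q) ^ m` for some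
   `m`, where `p > q > 0` are fixed integers; for instance for the integers nearest to these numbers.
5. The general inequality behind 1 and 2, for `h u₂ y = a u₁ + n r` with `S`-smooth `u₁`, `u₂`, `n`
   and an arbitrary nonzero integer `r`.

The proof uses the `S`-adic subspace theorem for the coordinates
`w₁ ^ 4, w₁ n r, w₁ ^ 2 w₂ ^ 2 x, w₂ ^ 4 x ^ 2`, where `u₁ = k₁ w₁ ^ 3`, `u₂ = k₂ w₂ ^ 3`, and the binomial
expansion of `y ^ (2 / 3)`.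
-/

set_option autoImplicit false

namespace Pool.Agent.Results.MP_9d7cd1_nt.OrdinatesNearSUnits

/-- `u` is a positive integer all of whose prime factors are in `S` -/
def Smooth (S : Finset ℕ) (u : ℕ) : Prop := u ≠ 0 ∧ u.primeFactors ⊆ S

lemma to_log {e C : ℝ} (he : 0 < e) (hC : 0 < C) {x y d : ℤ} (hd : d ≠ 0) (hxy : y ^ 2 = x ^ 3 + d)
    (h : |(x : ℝ)| ^ e ≤ C * |(y : ℝ) ^ 2 - (x : ℝ) ^ 3|) :
    Real.log |(x : ℝ)| < 1 / e * Real.log |(d : ℝ)| + (1 / e * |Real.log C| + 1) := by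
  have h1 : (y : ℝ) ^ 2 - (x : ℝ) ^ 3 = d := by
    have : (y : ℝ) ^ 2 = (x : ℝ) ^ 3 + d := by exact_mod_cast hxy
    linarith
  rw [h1] at h
  have hd1 : (1 : ℝ) ≤ |(d : ℝ)| := by
    have : 1 ≤ |d| := Int.one_le_abs hd
    exact_mod_cast this
  have hl : 0 ≤ Real.log |(d : ℝ)| := Real.log_nonneg hd1
  have he' : 0 < 1 / e := by positivity
  have h0 : 0 ≤ 1 / e * Real.log |(d : ℝ)| := by positivity
  have h0' : 0 ≤ 1 / e * |Real.log C| := by positivity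
  by_cases hx : x = 0
  · rw [hx]
    push_cast
    rw [abs_zero, Real.log_zero]
    linarith
  · have hx1 : (1 : ℝ) ≤ |(x : ℝ)| := by
      have : 1 ≤ |x| := Int.one_le_abs hx
      exact_mod_cast this
    have h2 := Real.log_le_log (by positivity) h
    rw [Real.log_rpow (by linarith), Real.log_mul hC.ne' (by positivity)] at h2
    have h3 : Real.log |(x : ℝ)| = 1 / e * (e * Real.log |(x : ℝ)|) := by field_simp
    have h4 : 1 / e * (e * Real.log |(x : ℝ)|) ≤ 1 / e * (|Real.log C| + Real.log |(d : ℝ)|) := by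
      gcongr
      linarith [le_abs_self (Real.log C)]
    rw [h3]
    linarith

/-- **Theorem.** Hall's inequality for all integral points with ordinate near an `S`-unit. -/
theorem result :
    -- (1) windows of length `|y| ^ (1 / 2 - δ)`
    (∀ (S : Finset ℕ) (H : ℕ) (δ : ℝ), 0 < δ → ∃ C : ℝ, ∀ d x y : ℤ, d ≠ 0 → y ^ 2 = x ^ 3 + d →
      ∀ (a h : ℤ) (u : ℕ), a ≠ 0 → h ≠ 0 → |a| ≤ H → |h| ≤ H → Smooth S u →
      |((h * y - a * u : ℤ) : ℝ)| ≤ |(y : ℝ)| ^ (1 / 2 - δ) →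
      Real.log |(x : ℝ)| < 4 / 3 * Real.log |(d : ℝ)| + C) ∧
    -- (2) windows of length `|y| ^ (4 / 9)`
    (∀ (S : Finset ℕ) (H : ℕ) (ε : ℝ), 0 < ε → ∃ C : ℝ, ∀ d x y : ℤ, d ≠ 0 → y ^ 2 = x ^ 3 + d →
      ∀ (a h : ℤ) (u : ℕ), a ≠ 0 → h ≠ 0 → |a| ≤ H → |h| ≤ H → Smooth S u →
      |((h * y - a * u : ℤ) : ℝ)| ≤ |(y : ℝ)| ^ (4 / 9 : ℝ) →
      Real.log |(x : ℝ)| < (1 + ε) * Real.log |(d : ℝ)| + C) ∧
    -- (3) windows of length `|y| ^ (1 / 3 - δ)` around multiples of rational `S`-units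
    (∀ (S : Finset ℕ) (H : ℕ) (B δ : ℝ), 0 ≤ B → 0 < δ → ∃ C : ℝ, ∀ d x y : ℤ, d ≠ 0 →
      y ^ 2 = x ^ 3 + d → ∀ (a h : ℤ) (u₁ u₂ : ℕ), a ≠ 0 → h ≠ 0 → |a| ≤ H → |h| ≤ H →
      Smooth S u₁ → Smooth S u₂ → (u₁ : ℝ) ≤ |(y : ℝ)| ^ B → (u₂ : ℝ) ≤ |(y : ℝ)| ^ B →
      |((h * u₂ * y - a * u₁ : ℤ) : ℝ)| ≤ u₂ * |(y : ℝ)| ^ (1 / 3 - δ) →
      Real.log |(x : ℝ)| < 2 / 3 * Real.log |(d : ℝ)| + C) ∧
    -- (4) windows of length `|y| ^ (1 / 3 - δ)` around `(a / h) (p / q) ^ m`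
    (∀ (p q H : ℕ) (δ : ℝ), 0 < q → q < p → 0 < δ → ∃ C : ℝ, ∀ (m : ℕ) (d x y : ℤ), d ≠ 0 →
      y ^ 2 = x ^ 3 + d → ∀ a h : ℤ, a ≠ 0 → h ≠ 0 → |a| ≤ H → |h| ≤ H →
      |((h * q ^ m * y - a * p ^ m : ℤ) : ℝ)| ≤ (q : ℝ) ^ m * |(y : ℝ)| ^ (1 / 3 - δ) →
      Real.log |(x : ℝ)| < 2 / 3 * Real.log |(d : ℝ)| + C) ∧
    -- (5) the general inequality
    (∀ (S : Finset ℕ) (H : ℕ) (B δ : ℝ), 0 ≤ B → 0 < δ → ∃ C : ℝ,
      ∀ (x y a h r : ℤ) (u₁ u₂ n : ℕ), y ^ 2 ≠ x ^ 3 → a ≠ 0 → h ≠ 0 → r ≠ 0 → |a| ≤ H → |h| ≤ H →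
      Smooth S u₁ → Smooth S u₂ → Smooth S n →
      (u₁ : ℝ) ≤ |(x : ℝ)| ^ B → (u₂ : ℝ) ≤ |(x : ℝ)| ^ B → h * u₂ * y = a * u₁ + n * r →
      (n : ℝ) * |(r : ℝ)| ≤ u₂ * |(x : ℝ)| ^ (3 / 4 - δ) →
      |(r : ℝ)| * ((n : ℝ) * |(r : ℝ)| / u₂) ^ 5 ≤ |(x : ℝ)| ^ (9 / 2 - δ) →
      |(x : ℝ)| ^ (-δ) * min |(x : ℝ)| (|(x : ℝ)| ^ 3 / (|(r : ℝ)| * ((n : ℝ) * |(r : ℝ)| / u₂) ^ 2)) ≤
        C * |(y : ℝ) ^ 2 - (x : ℝ) ^ 3|) := by
  have hne : ∀ {d x y : ℤ}, d ≠ 0 → y ^ 2 = x ^ 3 + d → y ^ 2 ≠ x ^ 3 := by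
    intro d x y hd hxy h0
    exact hd (by linarith)
  refine ⟨?_, ?_, ?_, ?_, ?_⟩
  · intro S H δ hδ
    obtain ⟨C, hC, h1⟩ := Pool.Agent.Zk43.HO.ord_half S H δ hδ
    refine ⟨1 / (3 / 4 : ℝ) * |Real.log C| + 1, fun d x y hd hxy a h u ha hh haH hhH hu hr => ?_⟩
    have h2 := to_log (by norm_num) hC hd hxy (h1 x y a h u (hne hd hxy) ha hh haH hhH hu hr)
    have e : (1 : ℝ) / (3 / 4) = 4 / 3 := by norm_num
    rw [e] at h2 ⊢
    exact h2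
  · intro S H ε hε
    have h1e : 0 < 1 + ε := by linarith
    obtain ⟨C, hC, h1⟩ := Pool.Agent.Zk43.HO.ord_49 S H (ε / (1 + ε)) (by positivity)
    refine ⟨(1 + ε) * |Real.log C| + 1, fun d x y hd hxy a h u ha hh haH hhH hu hr => ?_⟩
    have h3 := h1 x y a h u (hne hd hxy) ha hh haH hhH hu hr
    have e : 1 - ε / (1 + ε) = 1 / (1 + ε) := by field_simp; ring
    rw [e] at h3
    have h2 := to_log (by positivity) hC hd hxy h3
    rw [one_div_one_div] at h2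
    exact h2
  · intro S H B δ hB hδ
    obtain ⟨C, hC, h1⟩ := Pool.Agent.Zk43.HO.ord_rat S H B δ hB hδ
    refine ⟨1 / (3 / 2 : ℝ) * |Real.log C| + 1,
      fun d x y hd hxy a h u₁ u₂ ha hh haH hhH hu1 hu2 hb1 hb2 hr => ?_⟩
    have h2 := to_log (by norm_num) hC hd hxy
      (h1 x y a h u₁ u₂ (hne hd hxy) ha hh haH hhH hu1 hu2 hb1 hb2 hr)
    have e : (1 : ℝ) / (3 / 2) = 2 / 3 := by norm_num
    rw [e] at h2 ⊢
    exact h2
  · intro p q H δ hq hpq hδ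
    obtain ⟨C, hC, h1⟩ := Pool.Agent.Zk43.HO.ord_pow p q H hq hpq δ hδ
    refine ⟨1 / (3 / 2 : ℝ) * |Real.log C| + 1, fun m d x y hd hxy a h ha hh haH hhH hr => ?_⟩
    have h2 := to_log (by norm_num) hC hd hxy (h1 m x y a h (hne hd hxy) ha hh haH hhH hr)
    have e : (1 : ℝ) / (3 / 2) = 2 / 3 := by norm_num
    rw [e] at h2 ⊢
    exact h2
  · intro S H B δ hB hδ
    obtain ⟨C, -, h1⟩ := Pool.Agent.Zk43.HO.ord_big S H B δ hB hδ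
    exact ⟨C, h1⟩

end Pool.Agent.Results.MP_9d7cd1_nt.OrdinatesNearSUnits
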